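import Pool.Agent.L7h51.KM.Stm

/-! Project KM (MP_d197f9_co), part F2. -/

namespace Pool.Agent.L7h96.KM

open Set Pool.Agent.L7h51.KM

universe u

theorem s_F2 : S_F2.{u} := by
  intro α M S e hS he hes
  obtain ⟨I, hI⟩ := M.exists_isBasis S hS
  rw [← hI.closure_eq_closure] at hes ⊢
  have hins : M.Indep (insert e I) := ((hI.indep.notMem_closure_iff he).1 hes).1
  have heI : e ∉ I := ((hI.indep.notMem_closure_iff he).1 hes).2
  obtain ⟨B, hB, hIB⟩ := hins.exists_isBase_superset
  have heB : e ∈ B := hIB (mem_insert e I)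
  refine ⟨M.E \ M.closure (B \ {e}), hB.compl_closure_sdiff_singleton_isCocircuit heB,
    ⟨he, hB.indep.notMem_closure_sdiff_of_mem heB⟩, ?_⟩
  have hsub : M.closure I ⊆ M.closure (B \ {e}) := by
    apply M.closure_subset_closure
    intro x hx
    refine ⟨hIB (mem_insert_of_mem e hx), ?_⟩
    rintro rfl
    exact heI hx
  rw [disjoint_left]
  rintro x ⟨-, hx⟩ hx'
  exact hx (hsub hx')

end Pool.Agent.L7h96.KM
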